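import Pool.Agent.H21A.Swap
import Pool.Agent.TFB.Att

/-! Absorption of run vertices, the form with marked neighbours (helper47, helper74). -/

namespace Pool.Agent.H75V

open List Pool.Agent.TF82 Pool.Agent.TFC Pool.Agent.TFB Pool.Agent.H62P Pool.Agent.H21A

universe u

set_option linter.unusedSectionVars false
set_option linter.unusedVariables false

variable {V : Type u} [DecidableEq V]

/-- a path of uncovered vertices between two consecutive vertices of a cycle -/
theorem ins_path {G : SimpleGraph V} {L : List (List V)} (hL : Fam G L) {w : V} {X : List V}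
    (hXd : ∀ x ∈ X, x ∉ L.flatten) (hXn : X.Nodup) (hw : w ∈ L.flatten)
    (hX : (prv L w :: (X ++ [w])).IsChain G.Adj) :
    ∃ L2, Fam G L2 ∧ L2.length ≤ L.length ∧ ∀ x, x ∈ L2.flatten ↔ x ∈ L.flatten ∨ x ∈ X := by
  obtain ⟨P, L', hP, h3, hperm, hL', hlen⟩ := place1 hL hw
  have hnod : (P ++ L'.flatten).Nodup := hperm.nodup_iff.1 hL.nod
  have hPm : ∀ x ∈ P, x ∈ L.flatten := fun x hx => hperm.mem_iff.2 (List.mem_append_left _ hx)
  have hLm : ∀ x ∈ L'.flatten, x ∈ L.flatten := fun x hx =>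
    hperm.mem_iff.2 (List.mem_append_right _ hx)
  have hseg := hP.seg hL hPm
  have hcyc : CycL G (P ++ X) := by
    refine close_seg hseg hX ?_ (by omega)
    rw [List.nodup_append]
    refine ⟨(List.nodup_append.1 hnod).1, hXn, ?_⟩
    rintro x hx y hy rfl
    exact hXd x hy (hPm x hx)
  refine ⟨(P ++ X) :: L', ⟨?_, ?_⟩, ?_, ?_⟩
  · intro c hc
    rcases List.mem_cons.1 hc with rfl | hc
    · exact hcyc
    · exact hL' c hc
  · rw [List.flatten_cons, List.nodup_append]
    refine ⟨hcyc.1, (List.nodup_append.1 hnod).2.1, ?_⟩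
    rintro x hx y hy rfl
    rcases List.mem_append.1 hx with hx | hx
    · exact (List.nodup_append.1 hnod).2.2 x hx x hy rfl
    · exact hXd x hx (hLm _ hy)
  · simp; omega
  · intro x
    rw [List.flatten_cons, List.mem_append, List.mem_append, hperm.mem_iff, List.mem_append]
    exact or_right_comm

theorem reach_mono {G : SimpleGraph V} {X Y : Finset V} (h : X ⊆ Y) {a b : V}
    (hr : Reach G X a b) : Reach G Y a b := by
  unfold Reach at *
  induction hr with
  | refl => exact Relation.ReflTransGen.refl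
  | tail _ h2 ih => exact Relation.ReflTransGen.tail ih ⟨h h2.1, h h2.2.1, h2.2.2⟩

/-- every uncovered vertex `x` has a marked covered neighbour `t x`, which is adjacent to no other
vertex of the component of `x` in `G[X]`: then `X` is absorbed. -/
theorem absorb_star {G : SimpleGraph V} [DecidableRel G.Adj] {U W : Finset V}
    (t : V → V) : ∀ (n : ℕ) (X : Finset V) (L : List (List V)), X.card = n →
    X ⊆ U \ W →
    (∀ v ∈ X, ∀ I : Finset V, I ⊆ U \ W → G.IsIndepSet (I : Set V) → v ∈ I →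
      I.card + 1 + W.card ≤ dU G U v) →
    Fam G L → (∀ x ∈ L.flatten, x ∈ U) →
    (∀ x ∈ X, x ∉ L.flatten) → (∀ x ∈ U \ W, x ∈ L.flatten ∨ x ∈ X) →
    (∀ x ∈ X, t x ∈ L.flatten) → (∀ x ∈ X, G.Adj x (t x)) →
    (∀ v ∈ X, ∀ x ∈ X, v ≠ x → Reach G X v x → ¬ G.Adj v (t x)) →
    CovW G U W L.length := by
  intro n
  induction n using Nat.strong_induction_on with
  | _ n ih =>
  intro X L hn hXU hC hL hLU hXL hcov htL hta hDD
  rcases X.eq_empty_or_nonempty with rfl | ⟨v, hv⟩
  · exact ⟨L, le_rfl, hL, hLU, fun x hx => (hcov x hx).resolve_right (by simp)⟩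
  by_contra hcon
  have hvU : v ∈ U \ W := hXU hv
  -- a better family
  have step : ∀ (q : List V) (L2 : List (List V)) (z : V), z ∈ q → (∀ x ∈ q, x ∈ X) → Fam G L2 →
      L2.length ≤ L.length → (∀ x, x ∈ L2.flatten ↔ x ∈ L.flatten ∨ x ∈ q) → False := by
    intro q L2 z hzq hqX hL2 hlen hm
    apply hcon
    have hsub : X.filter (fun x => x ∉ q) ⊆ X := Finset.filter_subset _ _
    have hlt : (X.filter (fun x => x ∉ q)).card < n := by
      rw [← hn]
      refine Finset.card_lt_card ((Finset.ssubset_iff_of_subset hsub).2 ⟨z, hqX z hzq, ?_⟩)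
      simp [hzq]
    refine (ih _ hlt (X.filter (fun x => x ∉ q)) L2 rfl (hsub.trans hXU)
      (fun w hw => hC w (hsub hw)) hL2 ?_ ?_ ?_ ?_
      (fun x hx => hta x (hsub hx))
      (fun x hx x' hx' h hr => hDD x (hsub hx) x' (hsub hx') h (reach_mono hsub hr))).mono
      hlen
    · intro x hx
      rcases (hm x).1 hx with h | h
      · exact hLU x h
      · exact (Finset.mem_sdiff.1 (hXU (hqX x h))).1
    · intro x hx h
      rw [Finset.mem_filter] at hx
      rcases (hm x).1 h with h | h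
      · exact hXL x hx.1 h
      · exact hx.2 h
    · intro x hx
      rw [hm, Finset.mem_filter]
      rcases hcov x hx with h | h
      · exact Or.inl (Or.inl h)
      · by_cases hq : x ∈ q
        · exact Or.inl (Or.inr hq)
        · exact Or.inr ⟨h, hq⟩
    · intro x hx
      rw [Finset.mem_filter] at hx
      exact (hm _).2 (Or.inl (htL x hx.1))
  set N : Finset V := L.flatten.toFinset.filter (fun w => G.Adj v w) with hN
  have hNm : ∀ w, w ∈ N ↔ w ∈ L.flatten ∧ G.Adj v w := by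
    intro w; rw [hN, Finset.mem_filter, List.mem_toFinset]
  classical
  set Y : Finset V := (X.filter (fun x => Reach G X v x)).erase v with hY
  have hYm : ∀ x, x ∈ Y ↔ x ≠ v ∧ x ∈ X ∧ Reach G X v x := by
    intro x; rw [hY, Finset.mem_erase, Finset.mem_filter]
  have hYX : ∀ x ∈ Y, x ∈ X := fun x hx => ((hYm x).1 hx).2.1
  have hYre : ∀ x ∈ Y, ∀ x' ∈ Y, Reach G X x x' := fun x hx x' hx' =>
    Relation.ReflTransGen.trans (Reach.symm ((hYm x).1 hx).2.2) ((hYm x').1 hx').2.2
  have hYt : ∀ x ∈ Y, ∀ x' ∈ Y, x ≠ x' → t x ≠ t x' := by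
    intro x hx x' hx' hne h
    exact hDD x' (hYX x' hx') x (hYX x hx) hne.symm (hYre x' hx' x hx)
      (h ▸ hta x' (hYX x' hx'))
  set P : Finset V := N.image (prv L) with hP
  set Q : Finset V := Y.image (fun x => prv L (t x)) with hQ
  have hPm : ∀ p ∈ P, ∃ w ∈ N, prv L w = p := by
    intro p hp
    obtain ⟨w, hw, rfl⟩ := Finset.mem_image.1 hp
    exact ⟨w, hw, rfl⟩
  have hQm : ∀ p ∈ Q, ∃ x ∈ Y, prv L (t x) = p := by
    intro p hp
    obtain ⟨w, hw, rfl⟩ := Finset.mem_image.1 hp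
    exact ⟨w, hw, rfl⟩
  have hPL : ∀ p ∈ P, p ∈ L.flatten := by
    intro p hp
    obtain ⟨w, hw, rfl⟩ := hPm p hp
    exact prv_mem hL ((hNm w).1 hw).1
  have hQL : ∀ p ∈ Q, p ∈ L.flatten := by
    intro p hp
    obtain ⟨x, hx, rfl⟩ := hQm p hp
    exact prv_mem hL (htL x (hYX x hx))
  have hcP : P.card = N.card := by
    refine Finset.card_image_of_injOn ?_
    intro a ha b hb hab
    exact prv_inj hL ((hNm a).1 (Finset.mem_coe.1 ha)).1 ((hNm b).1 (Finset.mem_coe.1 hb)).1 hab
  have hcQ : Q.card = Y.card := by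
    refine Finset.card_image_of_injOn ?_
    intro a ha b hb hab
    have ha' := Finset.mem_coe.1 ha
    have hb' := Finset.mem_coe.1 hb
    by_contra hne
    exact hYt a ha' b hb' hne (prv_inj hL (htL a (hYX a ha')) (htL b (hYX b hb')) hab)
  have hwt : ∀ w ∈ N, ∀ x ∈ Y, w ≠ t x := by
    intro w hw x hx h
    obtain ⟨hxv, hxX, hre⟩ := (hYm x).1 hx
    exact hDD v hv x hxX hxv.symm hre (h ▸ ((hNm w).1 hw).2)
  have hPQ : Disjoint P Q := by
    rw [Finset.disjoint_left]
    intro p hp hq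
    obtain ⟨w, hw, rfl⟩ := hPm p hp
    obtain ⟨x, hx, h⟩ := hQm _ hq
    exact hwt w hw x hx (prv_inj hL (htL x (hYX x hx)) ((hNm w).1 hw).1 h).symm
  set J : Finset V := insert v ((P ∪ Q) \ W) with hJ
  have hJU : J ⊆ U \ W := by
    intro x hx
    rcases Finset.mem_insert.1 hx with rfl | hx
    · exact hvU
    · rw [Finset.mem_sdiff, Finset.mem_union] at hx
      refine Finset.mem_sdiff.2 ⟨?_, hx.2⟩
      rcases hx.1 with h | h
      · exact hLU x (hPL x h)
      · exact hLU x (hQL x h)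
  have hvJ : v ∉ (P ∪ Q) \ W := by
    intro h
    rw [Finset.mem_sdiff, Finset.mem_union] at h
    rcases h.1 with h | h
    · exact hXL v hv (hPL v h)
    · exact hXL v hv (hQL v h)
  -- no edges
  have eP : ∀ p ∈ P, ¬ G.Adj v p := by
    intro p hp hadj
    obtain ⟨w, hw, rfl⟩ := hPm p hp
    obtain ⟨L2, g1, g2, g3⟩ := ins_path hL (X := [v]) (by simpa using hXL v hv) (by simp)
      ((hNm w).1 hw).1 (by simpa using ⟨hadj.symm, ((hNm w).1 hw).2⟩)
    exact step [v] L2 v (by simp) (by simpa using hv) g1 g2 g3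
  have eQ : ∀ p ∈ Q, ¬ G.Adj v p := by
    intro p hp hadj
    obtain ⟨x, hx, rfl⟩ := hQm p hp
    obtain ⟨hxv, hxX, hre⟩ := (hYm x).1 hx
    obtain ⟨q, h1, h2, h3, h4, h5⟩ := Reach.path hre hv
    obtain ⟨L2, g1, g2, g3⟩ := ins_path hL (X := q)
      (fun y hy => hXL y (h5 y hy)) h1 (htL x hxX)
      (chain_ends h2 h3 h4 hadj.symm (hta x hxX))
    exact step q L2 v (List.mem_of_head? h3) h5 g1 g2 g3
  have ePP : ∀ p ∈ P, ∀ p' ∈ P, p ≠ p' → ¬ G.Adj p p' := by
    intro p hp p' hp' hne hadj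
    obtain ⟨w, hw, rfl⟩ := hPm p hp
    obtain ⟨w', hw', rfl⟩ := hPm p' hp'
    have hww : w ≠ w' := fun h => hne (by rw [h])
    obtain ⟨L2, g1, g2, g3⟩ := cross_path hL (X := [v]) (by simpa using hXL v hv) (by simp)
      ((hNm w).1 hw).1 ((hNm w').1 hw').1 hww
      (by simpa using ⟨((hNm w').1 hw').2.symm, ((hNm w).1 hw).2⟩) hadj
    exact step [v] L2 v (by simp) (by simpa using hv) g1 g2 g3
  have ePQ : ∀ p ∈ P, ∀ p' ∈ Q, ¬ G.Adj p p' := by
    intro p hp p' hp' hadj
    obtain ⟨w, hw, rfl⟩ := hPm p hp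
    obtain ⟨x, hx, rfl⟩ := hQm p' hp'
    obtain ⟨hxv, hxX, hre⟩ := (hYm x).1 hx
    obtain ⟨q, h1, h2, h3, h4, h5⟩ := Reach.path hre.symm hxX
    obtain ⟨L2, g1, g2, g3⟩ := cross_path hL (X := q)
      (fun y hy => hXL y (h5 y hy)) h1 ((hNm w).1 hw).1 (htL x hxX) (hwt w hw x hx)
      (chain_ends h2 h3 h4 (hta x hxX).symm ((hNm w).1 hw).2) hadj
    exact step q L2 v (List.mem_of_getLast? h4) h5 g1 g2 g3
  have eQQ : ∀ p ∈ Q, ∀ p' ∈ Q, p ≠ p' → ¬ G.Adj p p' := by
    intro p hp p' hp' hne hadj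
    obtain ⟨x, hx, rfl⟩ := hQm p hp
    obtain ⟨x', hx', rfl⟩ := hQm p' hp'
    have hxx : x ≠ x' := fun h => hne (by rw [h])
    obtain ⟨q, h1, h2, h3, h4, h5⟩ := Reach.path (hYre x' hx' x hx) (hYX x' hx')
    obtain ⟨L2, g1, g2, g3⟩ := cross_path hL (X := q)
      (fun y hy => hXL y (h5 y hy)) h1 (htL x (hYX x hx)) (htL x' (hYX x' hx'))
      (hYt x hx x' hx' hxx)
      (chain_ends h2 h3 h4 (hta x' (hYX x' hx')).symm (hta x (hYX x hx))) hadj
    exact step q L2 x' (List.mem_of_head? h3) h5 g1 g2 g3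
  have hind : G.IsIndepSet ((J : Finset V) : Set V) := by
    intro a ha b hb hab
    rw [Finset.mem_coe, hJ, Finset.mem_insert, Finset.mem_sdiff, Finset.mem_union] at ha hb
    rcases ha with rfl | ⟨ha | ha, -⟩ <;> rcases hb with rfl | ⟨hb | hb, -⟩
    · exact absurd rfl hab
    · exact eP b hb
    · exact eQ b hb
    · intro h; exact eP a ha h.symm
    · exact ePP a ha b hb hab
    · exact ePQ a ha b hb
    · intro h; exact eQ a ha h.symm
    · intro h; exact ePQ b hb a ha h.symm
    · exact eQQ a ha b hb hab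
  have key := hC v hv J hJU hind (Finset.mem_insert_self _ _)
  rw [hJ, Finset.card_insert_of_notMem hvJ] at key
  have h1 : N.card + Y.card ≤ ((P ∪ Q) \ W).card + (W.filter (fun x => x ∈ L.flatten)).card := by
    rw [← hcP, ← hcQ, ← Finset.card_union_of_disjoint hPQ]
    have : P ∪ Q ⊆ ((P ∪ Q) \ W) ∪ (W.filter (fun x => x ∈ L.flatten)) := by
      intro p hp
      by_cases hpW : p ∈ W
      · refine Finset.mem_union_right _ (Finset.mem_filter.2 ⟨hpW, ?_⟩)
        rcases Finset.mem_union.1 hp with h | h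
        · exact hPL p h
        · exact hQL p h
      · exact Finset.mem_union_left _ (Finset.mem_sdiff.2 ⟨hp, hpW⟩)
    exact (Finset.card_le_card this).trans (Finset.card_union_le _ _)
  have h2 : dU G U v ≤ N.card + Y.card + (W.filter (fun x => x ∉ L.flatten)).card := by
    unfold dU
    have : U.filter (fun w => G.Adj v w) ⊆ (N ∪ Y) ∪ (W.filter (fun x => x ∉ L.flatten)) := by
      intro w hw
      rw [Finset.mem_filter] at hw
      by_cases hwL : w ∈ L.flatten
      · exact Finset.mem_union_left _ (Finset.mem_union_left _ ((hNm w).2 ⟨hwL, hw.2⟩))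
      · by_cases hwX : w ∈ X
        · refine Finset.mem_union_left _ (Finset.mem_union_right _ ((hYm w).2 ⟨?_, hwX, ?_⟩))
          · rintro rfl; exact G.loopless.irrefl _ hw.2
          · exact Relation.ReflTransGen.single ⟨hv, hwX, hw.2⟩
        · refine Finset.mem_union_right _ (Finset.mem_filter.2 ⟨?_, hwL⟩)
          by_contra hwW
          exact (hcov w (Finset.mem_sdiff.2 ⟨hw.1, hwW⟩)).elim hwL hwX
    refine (Finset.card_le_card this).trans ((Finset.card_union_le _ _).trans ?_)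
    exact Nat.add_le_add_right (Finset.card_union_le _ _) _
  have h3 := Finset.card_filter_add_card_filter_not (s := W) (fun x => x ∈ L.flatten)
  omega

end Pool.Agent.H75V
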