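import Pool.Agent.H62P.Skel

/-! The virtual hub: one new vertex joined to a set of vertices of a component. -/

namespace Pool.Agent.H75V

open List Pool.Agent.TF82 Pool.Agent.TFC Pool.Agent.TFB Pool.Agent.H62P

universe u

set_option linter.unusedSectionVars false
set_option linter.unusedVariables false

variable {V : Type u} [DecidableEq V]

/-- `G` on `Z`, and the vertex `y0` joined exactly to the vertices of `P` -/
def virt (G : SimpleGraph V) (Z P : Finset V) (y0 : V) : SimpleGraph V where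
  Adj a b := (a ∈ Z ∧ b ∈ Z ∧ G.Adj a b) ∨ (a ≠ b ∧ ((a = y0 ∧ b ∈ P) ∨ (b = y0 ∧ a ∈ P)))
  symm := ⟨by
    rintro a b (⟨h1, h2, h3⟩ | ⟨h1, h2 | h2⟩)
    · exact Or.inl ⟨h2, h1, h3.symm⟩
    · exact Or.inr ⟨h1.symm, Or.inr h2⟩
    · exact Or.inr ⟨h1.symm, Or.inl h2⟩⟩
  loopless := ⟨by
    rintro a (⟨h1, h2, h3⟩ | ⟨h1, _⟩)
    · exact G.loopless.irrefl _ h3
    · exact h1 rfl⟩

noncomputable instance (G : SimpleGraph V) (Z P : Finset V) (y0 : V) :
    DecidableRel (virt G Z P y0).Adj := Classical.decRel _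

theorem virt_adj {G : SimpleGraph V} {Z P : Finset V} {y0 a b : V} :
    (virt G Z P y0).Adj a b ↔
      (a ∈ Z ∧ b ∈ Z ∧ G.Adj a b) ∨ (a ≠ b ∧ ((a = y0 ∧ b ∈ P) ∨ (b = y0 ∧ a ∈ P))) := Iff.rfl

theorem virt_adj_in {G : SimpleGraph V} {Z P : Finset V} {y0 : V} (hy : y0 ∉ Z)
    {a b : V} (ha : a ∈ Z) (hb : b ∈ Z) : (virt G Z P y0).Adj a b ↔ G.Adj a b := by
  rw [virt_adj]
  constructor
  · rintro (⟨_, _, h⟩ | ⟨_, ⟨rfl, _⟩ | ⟨rfl, _⟩⟩)
    · exact h
    · exact absurd ha hy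
    · exact absurd hb hy
  · intro h
    exact Or.inl ⟨ha, hb, h⟩

theorem virt_adj_y {G : SimpleGraph V} {Z P : Finset V} {y0 : V} (hP : P ⊆ Z) (hy : y0 ∉ Z)
    {b : V} : (virt G Z P y0).Adj y0 b ↔ b ∈ P := by
  rw [virt_adj]
  constructor
  · rintro (⟨h, _, _⟩ | ⟨h, ⟨_, h'⟩ | ⟨rfl, _⟩⟩)
    · exact absurd h hy
    · exact h'
    · exact absurd rfl h
  · intro h
    exact Or.inr ⟨fun h' => hy (hP (h' ▸ h)), Or.inl ⟨rfl, h⟩⟩

theorem virt_dU {G : SimpleGraph V} [DecidableRel G.Adj] {Z P : Finset V} {y0 : V}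
    (hP : P ⊆ Z) (hy : y0 ∉ Z) {v : V} (hv : v ∈ Z) :
    dU (virt G Z P y0) (insert y0 Z) v = dU G Z v + (if v ∈ P then 1 else 0) := by
  unfold dU
  rw [Finset.filter_insert]
  have h1 : Z.filter (fun w => (virt G Z P y0).Adj v w) = Z.filter (fun w => G.Adj v w) := by
    refine Finset.filter_congr (fun w hw => ?_)
    exact virt_adj_in hy hv hw
  by_cases hvP : v ∈ P
  · have h2 : (virt G Z P y0).Adj v y0 := ((virt_adj_y hP hy).2 hvP).symm
    rw [if_pos h2, if_pos hvP, Finset.card_insert_of_notMem, h1]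
    intro h
    exact hy (Finset.mem_filter.1 h).1
  · have h2 : ¬ (virt G Z P y0).Adj v y0 := fun h => hvP ((virt_adj_y hP hy).1 h.symm)
    rw [if_neg h2, if_neg hvP, h1, Nat.add_zero]

theorem virt_sdiff {Z W : Finset V} {y0 : V} (hy : y0 ∉ Z) :
    insert y0 Z \ insert y0 W = Z \ W := by
  ext x
  simp only [Finset.mem_sdiff, Finset.mem_insert, not_or]
  constructor
  · rintro ⟨rfl | h1, h2, h3⟩
    · exact absurd rfl h2
    · exact ⟨h1, h3⟩
  · rintro ⟨h1, h2⟩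
    exact ⟨Or.inr h1, fun h => hy (h ▸ h1), h2⟩

theorem virt_indep {G : SimpleGraph V} {Z P I : Finset V} {y0 : V} (hy : y0 ∉ Z)
    (hI : I ⊆ Z) : (virt G Z P y0).IsIndepSet (I : Set V) ↔ G.IsIndepSet (I : Set V) := by
  constructor
  · intro h a ha b hb hab hadj
    exact h ha hb hab ((virt_adj_in hy (hI (Finset.mem_coe.1 ha)) (hI (Finset.mem_coe.1 hb))).2 hadj)
  · intro h a ha b hb hab hadj
    exact h ha hb hab ((virt_adj_in hy (hI (Finset.mem_coe.1 ha)) (hI (Finset.mem_coe.1 hb))).1 hadj)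

/-- the virtual hub stays in the class -/
theorem virt_CW {G : SimpleGraph V} [DecidableRel G.Adj] {Z W P : Finset V} {y0 : V}
    (hP : P ⊆ Z) (hW : W ⊆ Z) (hy : y0 ∉ Z)
    (h : ∀ I : Finset V, I ⊆ Z \ W → G.IsIndepSet (I : Set V) → ∀ v ∈ I,
      I.card + 1 + W.card + (if v ∈ P then 0 else 1) ≤ dU G Z v) :
    CW (virt G Z P y0) (insert y0 Z) (insert y0 W) := by
  intro I hI hind v hv
  rw [virt_sdiff hy] at hI
  have hIZ : I ⊆ Z := hI.trans Finset.sdiff_subset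
  have h1 := h I hI ((virt_indep hy hIZ).1 hind) v hv
  rw [virt_dU hP hy (hIZ hv), Finset.card_insert_of_notMem (fun h => hy (hW h))]
  split_ifs at h1 ⊢ <;> omega

theorem chain_virt {G : SimpleGraph V} {Z P : Finset V} {y0 : V} (hy : y0 ∉ Z) {l : List V}
    (hl : ∀ x ∈ l, x ∈ Z) (h : l.IsChain (virt G Z P y0).Adj) : l.IsChain G.Adj := by
  refine List.IsChain.imp_of_mem_imp ?_ h
  intro a b ha hb hab
  exact (virt_adj_in hy (hl a ha) (hl b hb)).1 hab

theorem cyc_virt {G : SimpleGraph V} {Z P : Finset V} {y0 : V} (hy : y0 ∉ Z) {l : List V}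
    (hl : ∀ x ∈ l, x ∈ Z) (h : CycL (virt G Z P y0) l) : CycL G l := by
  obtain ⟨h1, h2, h3, h4⟩ := h
  refine ⟨h1, h2, chain_virt hy hl h3, ?_⟩
  intro x hx z hz
  exact (virt_adj_in hy (hl x (List.mem_of_getLast? hx)) (hl z (List.mem_of_head? hz))).1
    (h4 x hx z hz)

/-- a cover with the virtual hub: either it is not used, or it closes a path with both ends
in `P`. -/
theorem virt_cov {G : SimpleGraph V} {Z W P : Finset V} {y0 : V}
    (hP : P ⊆ Z) (hW : W ⊆ Z) (hy : y0 ∉ Z) {k : ℕ}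
    (h : CovW (virt G Z P y0) (insert y0 Z) (insert y0 W) k) :
    CovW G Z W k ∨ ∃ (Q : List V) (a b : V), Seg G Q a b ∧ Q.Nodup ∧ (∀ x ∈ Q, x ∈ Z) ∧
      a ∈ P ∧ b ∈ P ∧ 2 ≤ Q.length ∧
      ∃ j, j + 1 = k ∧ CovW G (Z \ Q.toFinset) (W \ Q.toFinset) j := by
  obtain ⟨L, hk, hL, hLU, hLc⟩ := h
  rw [virt_sdiff hy] at hLc
  by_cases hyL : y0 ∈ L.flatten
  · right
    obtain ⟨R, L', hR, hR3, hperm, hL', hlen⟩ := place1 hL hyL
    have hsegR := hR.seg hL (fun x hx => hperm.mem_iff.2 (by simp [hx]))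
    have hnod : (R ++ L'.flatten).Nodup := hperm.nodup_iff.1 hL.nod
    have hclose : (virt G Z P y0).Adj y0 (prv L y0) := (prv_adj hL hyL).symm
    -- R = y0 :: Q
    rcases R with _ | ⟨r, Q⟩
    · simp at hR3
    have hr : r = y0 := by
      have := hsegR.hd
      simpa using this
    subst hr
    have hQ2 : 2 ≤ Q.length := by simp at hR3; omega
    have hQne : Q ≠ [] := by rintro rfl; simp at hQ2
    have hnodQ : Q.Nodup := (List.nodup_cons.1 (List.nodup_append.1 hnod).1).2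
    have hrQ : r ∉ Q := (List.nodup_cons.1 (List.nodup_append.1 hnod).1).1
    have hrL' : r ∉ L'.flatten := fun h =>
      (List.nodup_append.1 hnod).2.2 r (by simp) r h rfl
    have hQZ : ∀ x ∈ Q, x ∈ Z := by
      intro x hx
      have := hLU x (hperm.mem_iff.2 (by simp [hx]))
      rcases Finset.mem_insert.1 this with h | h
      · exact absurd (h ▸ hx) hrQ
      · exact h
    have hL'Z : ∀ x ∈ L'.flatten, x ∈ Z := by
      intro x hx
      have := hLU x (hperm.mem_iff.2 (by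
        rw [List.mem_append]; exact Or.inr hx))
      rcases Finset.mem_insert.1 this with h | h
      · exact absurd (h ▸ hx) hrL'
      · exact h
    have hch := hsegR.ch
    rw [List.isChain_cons] at hch
    obtain ⟨a, ha⟩ : ∃ a, Q.head? = some a := by
      rcases Q with _ | ⟨a, Q⟩
      · exact absurd rfl hQne
      · exact ⟨a, rfl⟩
    have hlast : Q.getLast? = some (prv L r) := by
      have := hsegR.lt
      rwa [List.getLast?_cons_of_ne_nil hQne] at this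
    refine ⟨Q, a, prv L r, ⟨chain_virt hy hQZ hch.2, ha, hlast⟩, hnodQ, hQZ, ?_, ?_, hQ2,
      k - 1, ?_, ?_⟩
    · exact (virt_adj_y hP hy).1 (hch.1 a ha)
    · exact (virt_adj_y hP hy).1 hclose
    · omega
    · refine ⟨L', by omega, ⟨fun c hc => ?_, (List.nodup_append.1 hnod).2.1⟩, ?_, ?_⟩
      · exact cyc_virt hy (fun x hx => hL'Z x (List.mem_flatten.2 ⟨c, hc, hx⟩)) (hL' c hc)
      · intro x hx
        refine Finset.mem_sdiff.2 ⟨hL'Z x hx, fun h => ?_⟩
        exact (List.nodup_append.1 hnod).2.2 x (by simp [List.mem_toFinset.1 h]) x hx rfl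
      · intro x hx
        obtain ⟨hx1, hx2⟩ := Finset.mem_sdiff.1 hx
        obtain ⟨hx3, hx4⟩ := Finset.mem_sdiff.1 hx1
        have hxW : x ∉ W := fun h => hx2 (Finset.mem_sdiff.2 ⟨h, hx4⟩)
        have := hperm.mem_iff.1 (hLc x (Finset.mem_sdiff.2 ⟨hx3, hxW⟩))
        rcases List.mem_append.1 this with h | h
        · rcases List.mem_cons.1 h with h | h
          · exact absurd (h ▸ hx3) hy
          · exact absurd (List.mem_toFinset.2 h) hx4
        · exact h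
  · left
    have hLZ : ∀ x ∈ L.flatten, x ∈ Z := by
      intro x hx
      rcases Finset.mem_insert.1 (hLU x hx) with h | h
      · exact absurd (h ▸ hx) hyL
      · exact h
    refine ⟨L, hk, ⟨fun c hc => ?_, hL.nod⟩, hLZ, hLc⟩
    exact cyc_virt hy (fun x hx => hLZ x (List.mem_flatten.2 ⟨c, hc, hx⟩)) (hL.cyc c hc)

/-- the independent set given by the induction for the graph with the virtual hub -/
theorem virt_sum {G : SimpleGraph V} [DecidableRel G.Adj] {Z W P : Finset V} {y0 : V}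
    (hP : P ⊆ Z) (hW : W ⊆ Z) (hy : y0 ∉ Z) {k : ℕ}
    (hPW : PW (virt G Z P y0) (insert y0 Z) (insert y0 W)) (h1 : ¬ CovW G Z W k)
    (h2 : ∀ (Q : List V) (a b : V) (j : ℕ), Seg G Q a b → Q.Nodup → (∀ x ∈ Q, x ∈ Z) →
      a ∈ P → b ∈ P → 2 ≤ Q.length → j + 1 = k →
      ¬ CovW G (Z \ Q.toFinset) (W \ Q.toFinset) j) :
    ∃ I : Finset V, I ⊆ Z \ W ∧ G.IsIndepSet (I : Set V) ∧ I.card = k + 1 ∧
      ∑ v ∈ I, (dU G Z v + (if v ∈ P then 1 else 0)) ≤ Z.card := by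
  obtain ⟨I, h3, h4, h5, h6⟩ := hPW k (by
    intro h
    rcases virt_cov hP hW hy h with h | ⟨Q, a, b, hQ, hn, hZ, ha, hb, h2', j, hj, hc⟩
    · exact h1 h
    · exact h2 Q a b j hQ hn hZ ha hb h2' hj hc)
  rw [virt_sdiff hy] at h3
  have hIZ : I ⊆ Z := h3.trans Finset.sdiff_subset
  refine ⟨I, h3, (virt_indep hy hIZ).1 h4, h5, ?_⟩
  rw [Finset.card_insert_of_notMem hy] at h6
  have : ∑ v ∈ I, (dU G Z v + (if v ∈ P then 1 else 0)) =
      ∑ v ∈ I, dU (virt G Z P y0) (insert y0 Z) v := by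
    refine Finset.sum_congr rfl (fun v hv => ?_)
    rw [virt_dU hP hy (hIZ hv)]
  omega

end Pool.Agent.H75V
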